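import Mathlib

/-!
Isoptics of plane compact sets: support function and the angle of sight.
-/

set_option autoImplicit false
open Set Real

namespace Pool.Agent.Q155.Iso

/-- the angle of sight of `S` from `P`: the largest angle `x P y` with `x`, `y` in `S` -/
noncomputable def sight (S : Set ℂ) (P : ℂ) : ℝ :=
  sSup {a | ∃ x ∈ S, ∃ y ∈ S, a = EuclideanGeometry.angle x P y}

/-- the isoptic of `S` at the angle `α` -/
def isoptic (S : Set ℂ) (α : ℝ) : Set ℂ := {P | P ∉ S ∧ sight S P = α}

/-- the product with the unit vector in the direction `φ` -/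
noncomputable def dot (z : ℂ) (φ : ℝ) : ℝ := z.re * cos φ + z.im * sin φ

/-- the product with the unit vector in the direction `φ + π / 2` -/
noncomputable def dop (z : ℂ) (φ : ℝ) : ℝ := z.im * cos φ - z.re * sin φ

/-- the support function -/
noncomputable def supp (S : Set ℂ) (φ : ℝ) : ℝ := sSup ((fun x => dot x φ) '' S)

theorem dot_sub (z w : ℂ) (φ : ℝ) : dot (z - w) φ = dot z φ - dot w φ := by
  simp only [dot, Complex.sub_re, Complex.sub_im]; ring

theorem dop_sub (z w : ℂ) (φ : ℝ) : dop (z - w) φ = dop z φ - dop w φ := by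
  simp only [dop, Complex.sub_re, Complex.sub_im]; ring

theorem dot_add_pi (z : ℂ) (φ : ℝ) : dot z (φ + π) = -dot z φ := by
  simp only [dot, cos_add_pi, sin_add_pi]; ring

theorem dot_add_two_pi (z : ℂ) (φ : ℝ) : dot z (φ + 2 * π) = dot z φ := by
  simp only [dot, cos_add_two_pi, sin_add_two_pi]

theorem dot_add (z : ℂ) (φ δ : ℝ) : dot z (φ + δ) = cos δ * dot z φ + sin δ * dop z φ := by
  simp only [dot, dop, cos_add, sin_add]; ring

theorem sq_dot_add_sq_dop (z : ℂ) (φ : ℝ) : dot z φ ^ 2 + dop z φ ^ 2 = ‖z‖ ^ 2 := by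
  rw [Complex.sq_norm, Complex.normSq_apply]
  simp only [dot, dop]
  have := sin_sq_add_cos_sq φ
  linear_combination (z.re * z.re + z.im * z.im) * this

theorem dot_le_norm (z : ℂ) (φ : ℝ) : dot z φ ≤ ‖z‖ := by
  have h := sq_dot_add_sq_dop z φ
  have h1 : dot z φ ^ 2 ≤ ‖z‖ ^ 2 := by nlinarith [sq_nonneg (dop z φ)]
  exact (abs_le_of_sq_le_sq' h1 (norm_nonneg _)).2

theorem eq_zero_of_dot {z : ℂ} {φ ψ : ℝ} (h1 : dot z φ = 0) (h2 : dot z ψ = 0)
    (hs : sin (ψ - φ) ≠ 0) : z = 0 := by
  rw [sin_sub] at hs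
  simp only [dot] at h1 h2
  have e1 : z.re * (sin ψ * cos φ - cos ψ * sin φ) = 0 := by
    linear_combination sin ψ * h1 - sin φ * h2
  have e2 : z.im * (sin ψ * cos φ - cos ψ * sin φ) = 0 := by
    linear_combination cos φ * h2 - cos ψ * h1
  apply Complex.ext
  · simpa [hs] using e1
  · simpa [hs] using e2

theorem eq_zero_of_dop {z : ℂ} {φ ψ : ℝ} (h1 : dop z φ = 0) (h2 : dop z ψ = 0)
    (hs : sin (ψ - φ) ≠ 0) : z = 0 := by
  rw [sin_sub] at hs
  simp only [dop] at h1 h2
  have e1 : z.re * (sin ψ * cos φ - cos ψ * sin φ) = 0 := by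
    linear_combination cos ψ * h1 - cos φ * h2
  have e2 : z.im * (sin ψ * cos φ - cos ψ * sin φ) = 0 := by
    linear_combination sin ψ * h1 - sin φ * h2
  apply Complex.ext
  · simpa [hs] using e1
  · simpa [hs] using e2

theorem eq_of_dot {z w : ℂ} {φ ψ : ℝ} (h1 : dot z φ = dot w φ) (h2 : dot z ψ = dot w ψ)
    (hs : sin (ψ - φ) ≠ 0) : z = w := by
  rw [← sub_eq_zero]
  apply eq_zero_of_dot (φ := φ) (ψ := ψ) _ _ hs
  · rw [dot_sub, h1, sub_self]
  · rw [dot_sub, h2, sub_self]

/-- three directions -/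
theorem dot_between (z : ℂ) (A B φ : ℝ) :
    sin (B - A) * dot z φ = sin (B - φ) * dot z A + sin (φ - A) * dot z B := by
  simp only [dot, sin_sub]; ring

theorem exists_dot_eq_norm (z : ℂ) : ∃ φ, dot z φ = ‖z‖ ∧ dop z φ = 0 := by
  refine ⟨Complex.arg z, ?_⟩
  have h1 : z.re = ‖z‖ * cos (Complex.arg z) := by
    rw [Complex.norm_mul_cos_arg]
  have h2 : z.im = ‖z‖ * sin (Complex.arg z) := by
    rw [Complex.norm_mul_sin_arg]
  have h3 := sin_sq_add_cos_sq (Complex.arg z)
  constructor
  · simp only [dot]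
    rw [h1, h2]
    have e : ‖(z : ℂ)‖ = ‖z‖ := rfl
    generalize Complex.arg z = a at *
    linear_combination ‖z‖ * h3
  · simp only [dop]
    rw [h1, h2]
    ring

section supp

variable {S : Set ℂ}

theorem continuous_dot : Continuous fun p : ℝ × ℂ => dot p.2 p.1 := by
  unfold dot
  fun_prop

theorem dot_le_supp (hc : IsCompact S) {x : ℂ} (hx : x ∈ S) (φ : ℝ) : dot x φ ≤ supp S φ := by
  refine le_csSup ?_ ⟨x, hx, rfl⟩
  refine (hc.image ?_).bddAbove
  exact continuous_dot.comp (Continuous.prodMk_right φ)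

theorem exists_dot_eq_supp (hc : IsCompact S) (hne : S.Nonempty) (φ : ℝ) :
    ∃ x ∈ S, dot x φ = supp S φ := by
  have h1 : IsCompact ((fun x => dot x φ) '' S) :=
    hc.image (continuous_dot.comp (Continuous.prodMk_right φ))
  obtain ⟨x, hx, h⟩ := h1.sSup_mem (hne.image _)
  exact ⟨x, hx, h⟩

theorem continuous_supp (hc : IsCompact S) : Continuous (supp S) := by
  have := hc.continuous_sSup (f := fun (φ : ℝ) (x : ℂ) => dot x φ) continuous_dot
  exact this

theorem supp_add_two_pi (φ : ℝ) : supp S (φ + 2 * π) = supp S φ := by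
  simp only [supp, dot_add_two_pi]

end supp

/-- the key inequality in a cone -/
theorem cone_ineq {a b c d k p q : ℝ} (ha : 0 ≤ a) (hb : 0 ≤ b) (hc : 0 ≤ c) (hd : 0 ≤ d)
    (hk : -1 ≤ k) (hk1 : k ≤ 1) (hp : 0 ≤ p) (hq : 0 ≤ q)
    (hp2 : p ^ 2 = a ^ 2 + b ^ 2 + 2 * k * a * b) (hq2 : q ^ 2 = c ^ 2 + d ^ 2 + 2 * k * c * d) :
    k * (p * q) ≤ a * c + b * d + k * (a * d + b * c) := by
  have hac := mul_nonneg ha hc
  have hbd := mul_nonneg hb hd
  have had := mul_nonneg ha hd
  have hbc := mul_nonneg hb hc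
  have hab := mul_nonneg ha hb
  have hcd := mul_nonneg hc hd
  rcases le_total 0 k with h | h
  · have h1 : p ≤ a + b := by
      apply abs_le_of_sq_le_sq' _ (by linarith) |>.2
      nlinarith
    have h2 : q ≤ c + d := by
      apply abs_le_of_sq_le_sq' _ (by linarith) |>.2
      nlinarith
    have h3 : p * q ≤ (a + b) * (c + d) := mul_le_mul h1 h2 hq (by linarith)
    nlinarith [mul_le_mul_of_nonneg_left h3 h]
  · set T := a * c + b * d + k * (a * d + b * c) with hT
    rcases le_total 0 T with h0 | h0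
    · have := mul_nonneg hp hq
      nlinarith
    · have hid : p ^ 2 * q ^ 2 = T ^ 2 + (1 - k ^ 2) * (a * d - b * c) ^ 2 := by
        rw [hp2, hq2, hT]; ring
      have hsq : T ^ 2 ≤ k ^ 2 * (a * d - b * c) ^ 2 := by
        have h5 : (a * d) * (b * c) = (a * c) * (b * d) := by ring
        rcases le_total (b * c) (a * d) with h6 | h6
        · have h7 : 2 * (b * c) ≤ a * c + b * d := by
            apply abs_le_of_sq_le_sq' _ (by linarith) |>.2
            nlinarith [sq_nonneg (a * c - b * d), mul_le_mul_of_nonneg_left h6 hbc]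
          have h8 : -T ≤ -k * (a * d - b * c) := by
            rw [hT]
            nlinarith [mul_nonneg (by linarith : 0 ≤ 1 + k) hbc]
          have h9 : 0 ≤ -T := by linarith
          have := mul_le_mul h8 h8 h9 (h9.trans h8)
          nlinarith
        · have h7 : 2 * (a * d) ≤ a * c + b * d := by
            apply abs_le_of_sq_le_sq' _ (by linarith) |>.2
            nlinarith [sq_nonneg (a * c - b * d), mul_le_mul_of_nonneg_left h6 had]
          have h8 : -T ≤ -k * (b * c - a * d) := by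
            rw [hT]
            nlinarith [mul_nonneg (by linarith : 0 ≤ 1 + k) had]
          have h9 : 0 ≤ -T := by linarith
          have := mul_le_mul h8 h8 h9 (h9.trans h8)
          nlinarith
      clear_value T
      have hk2 : 0 ≤ 1 - k ^ 2 := by
        have : (1 - k) * (1 + k) = 1 - k ^ 2 := by ring
        rw [← this]
        exact mul_nonneg (by linarith) (by linarith)
      have h10 : T ^ 2 ≤ (k * (p * q)) ^ 2 := by
        have e : (k * (p * q)) ^ 2 = k ^ 2 * T ^ 2 + (1 - k ^ 2) * (k ^ 2 * (a * d - b * c) ^ 2) := by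
          have e1 : (k * (p * q)) ^ 2 = k ^ 2 * (p ^ 2 * q ^ 2) := by ring
          rw [e1, hid]; ring
        rw [e]
        have e2 := mul_le_mul_of_nonneg_left hsq hk2
        have e3 : T ^ 2 = k ^ 2 * T ^ 2 + (1 - k ^ 2) * T ^ 2 := by ring
        linarith
      have h11 : 0 ≤ -(k * (p * q)) := by
        have h1 := mul_nonneg hp hq
        have h2 := mul_nonneg (neg_nonneg.2 h) h1
        linarith
      have h12 : (-T) ^ 2 ≤ (-(k * (p * q))) ^ 2 := by
        rw [neg_sq, neg_sq]
        exact h10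
      have h13 := (abs_le_of_sq_le_sq' h12 h11).2
      linarith

theorem angle_eq (x P y : ℂ) : EuclideanGeometry.angle x P y =
    arccos (((x - P).re * (y - P).re + (x - P).im * (y - P).im) / (‖x - P‖ * ‖y - P‖)) := by
  unfold EuclideanGeometry.angle InnerProductGeometry.angle
  simp only [vsub_eq_sub]
  rw [Complex.inner]
  simp only [Complex.mul_re, Complex.conj_re, Complex.conj_im]
  congr 2
  ring

theorem sight_eq {S : Set ℂ} (hc : IsCompact S) (hne : S.Nonempty) {δ θ : ℝ} (hδ : 0 < δ)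
    (hδ' : δ < π) {X : ℂ} (h1 : dot X θ = supp S θ) (h2 : dot X (θ + δ) = supp S (θ + δ))
    (hX : X ∉ S) : sight S X = π - δ := by
  have hs : 0 < sin δ := sin_pos_of_pos_of_lt_pi hδ hδ'
  -- coordinates in the cone
  have key : ∀ x ∈ S, ∃ a b : ℝ, 0 ≤ a ∧ 0 ≤ b ∧ (x - X).re = a * sin θ - b * sin (θ + δ) ∧
      (x - X).im = -a * cos θ + b * cos (θ + δ) := by
    intro x hx
    have e1 : dot (x - X) θ ≤ 0 := by
      rw [dot_sub, h1]
      linarith [dot_le_supp hc hx θ]
    have e2 : dot (x - X) (θ + δ) ≤ 0 := by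
      rw [dot_sub, h2]
      linarith [dot_le_supp hc hx (θ + δ)]
    refine ⟨-dot (x - X) (θ + δ) / sin δ, -dot (x - X) θ / sin δ,
      div_nonneg (by linarith) hs.le, div_nonneg (by linarith) hs.le, ?_, ?_⟩
    · have h3 := sin_sq_add_cos_sq θ
      have h4 : sin δ * (x - X).re = sin (θ + δ) * dot (x - X) θ - sin θ * dot (x - X) (θ + δ) := by
        simp only [dot, sin_add, cos_add]
        linear_combination (-(sin δ * (x - X).re)) * h3
      field_simp
      linarith
    · have h3 := sin_sq_add_cos_sq θ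
      have h4 : sin δ * (x - X).im = cos θ * dot (x - X) (θ + δ) - cos (θ + δ) * dot (x - X) θ := by
        simp only [dot, sin_add, cos_add]
        linear_combination (-(sin δ * (x - X).im)) * h3
      field_simp
      linarith
  have htr : sin θ * sin (θ + δ) + cos θ * cos (θ + δ) = cos δ := by
    have : cos δ = cos (θ + δ - θ) := by ring_nf
    rw [this, cos_sub]; ring
  have hθ := sin_sq_add_cos_sq θ
  have hθ' := sin_sq_add_cos_sq (θ + δ)
  have hnorm : ∀ x ∈ S, 0 < ‖x - X‖ := by
    intro x hx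
    rw [norm_pos_iff, sub_ne_zero]
    rintro rfl
    exact hX hx
  have hns : ∀ x : ℂ, ‖x - X‖ ^ 2 = (x - X).re ^ 2 + (x - X).im ^ 2 := by
    intro x
    rw [Complex.sq_norm, Complex.normSq_apply]; ring
  unfold sight
  apply IsGreatest.csSup_eq
  constructor
  · obtain ⟨y1, hy1, e1⟩ := exists_dot_eq_supp hc hne θ
    obtain ⟨y2, hy2, e2⟩ := exists_dot_eq_supp hc hne (θ + δ)
    refine ⟨y1, hy1, y2, hy2, ?_⟩
    obtain ⟨a, b, ha, hb, r1, i1⟩ := key y1 hy1
    obtain ⟨c, d, hc', hd, r2, i2⟩ := key y2 hy2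
    have hb0 : b = 0 := by
      have : dot (y1 - X) θ = 0 := by rw [dot_sub, e1, h1, sub_self]
      simp only [dot] at this
      rw [r1, i1] at this
      have h5 : b * sin δ = 0 := by
        have h6 : sin δ = sin (θ + δ) * cos θ - cos (θ + δ) * sin θ := by
          rw [← sin_sub]; ring_nf
        rw [h6]; linarith
      rcases mul_eq_zero.1 h5 with h | h
      · exact h
      · exact absurd h hs.ne'
    have hc0 : c = 0 := by
      have : dot (y2 - X) (θ + δ) = 0 := by rw [dot_sub, e2, h2, sub_self]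
      simp only [dot] at this
      rw [r2, i2] at this
      have h5 : c * sin δ = 0 := by
        have h6 : sin δ = sin (θ + δ) * cos θ - cos (θ + δ) * sin θ := by
          rw [← sin_sub]; ring_nf
        rw [h6]; linarith
      rcases mul_eq_zero.1 h5 with h | h
      · exact h
      · exact absurd h hs.ne'
    subst hb0 hc0
    have n1 : ‖y1 - X‖ = a := by
      have h5 : ‖y1 - X‖ ^ 2 = a ^ 2 := by
        rw [hns, r1, i1]
        linear_combination a ^ 2 * hθ
      exact (pow_left_inj₀ (norm_nonneg _) ha two_ne_zero).1 h5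
    have n2 : ‖y2 - X‖ = d := by
      have h5 : ‖y2 - X‖ ^ 2 = d ^ 2 := by
        rw [hns, r2, i2]
        linear_combination d ^ 2 * hθ'
      exact (pow_left_inj₀ (norm_nonneg _) hd two_ne_zero).1 h5
    have ha' : 0 < a := by rw [← n1]; exact hnorm y1 hy1
    have hd' : 0 < d := by rw [← n2]; exact hnorm y2 hy2
    rw [angle_eq, n1, n2, r1, r2, i1, i2]
    have h7 : ((a * sin θ - 0 * sin (θ + δ)) * (0 * sin θ - d * sin (θ + δ)) +
        (-a * cos θ + 0 * cos (θ + δ)) * (-0 * cos θ + d * cos (θ + δ))) / (a * d) = -cos δ := by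
      rw [div_eq_iff (by positivity)]
      linear_combination (-(a * d)) * htr
    rw [h7, arccos_neg, arccos_cos hδ.le hδ'.le]
  · rintro _ ⟨x, hx, y, hy, rfl⟩
    obtain ⟨a, b, ha, hb, r1, i1⟩ := key x hx
    obtain ⟨c, d, hc', hd, r2, i2⟩ := key y hy
    rw [angle_eq]
    have h8 : π - δ = arccos (-cos δ) := by
      rw [arccos_neg, arccos_cos hδ.le hδ'.le]
    rw [h8]
    apply arccos_le_arccos
    rw [le_div_iff₀ (mul_pos (hnorm x hx) (hnorm y hy))]
    have := cone_ineq (k := -cos δ) ha hb hc' hd (by linarith [cos_le_one δ])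
      (by linarith [neg_one_le_cos δ]) (norm_nonneg (x - X)) (norm_nonneg (y - X))
      (by
        rw [hns, r1, i1]
        linear_combination a ^ 2 * hθ + b ^ 2 * hθ' - 2 * a * b * htr)
      (by
        rw [hns, r2, i2]
        linear_combination c ^ 2 * hθ + d ^ 2 * hθ' - 2 * c * d * htr)
    refine this.trans (le_of_eq ?_)
    rw [r1, r2, i1, i2]
    linear_combination (-(a * c)) * hθ - (b * d) * hθ' + (a * d + b * c) * htr

theorem sight_subsingleton {S : Set ℂ} (hS : S.Subsingleton) {P : ℂ} (hP : P ∉ S) :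
    sight S P ≤ 0 := by
  unfold sight
  apply Real.sSup_le _ le_rfl
  rintro _ ⟨x, hx, y, hy, rfl⟩
  rw [hS hx hy]
  have : y ≠ P := fun h => hP (h ▸ hy)
  rw [EuclideanGeometry.angle_self_of_ne this]

end Pool.Agent.Q155.Iso
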