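import Mathlib
import Pool.Agent.Q155.Iso.Basic

/-!
Corners of a plane compact set with a circular isoptic.
-/

set_option autoImplicit false
open Set Real Filter Topology

namespace Pool.Agent.Q155.Iso

variable {S : Set ℂ}

/-- the intersection of the support lines in the directions `θ` and `θ + δ` -/
noncomputable def XX (S : Set ℂ) (δ θ : ℝ) : ℂ :=
  ⟨supp S θ * cos θ - (supp S (θ + δ) - cos δ * supp S θ) / sin δ * sin θ,
    supp S θ * sin θ + (supp S (θ + δ) - cos δ * supp S θ) / sin δ * cos θ⟩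

theorem dot_XX (S : Set ℂ) (δ θ : ℝ) : dot (XX S δ θ) θ = supp S θ := by
  have := sin_sq_add_cos_sq θ
  simp only [dot, XX]
  linear_combination supp S θ * this

theorem dop_XX (S : Set ℂ) (δ θ : ℝ) :
    dop (XX S δ θ) θ = (supp S (θ + δ) - cos δ * supp S θ) / sin δ := by
  have := sin_sq_add_cos_sq θ
  simp only [dop, XX]
  linear_combination (supp S (θ + δ) - cos δ * supp S θ) / sin δ * this

theorem dot_XX' (S : Set ℂ) {δ : ℝ} (hs : sin δ ≠ 0) (θ : ℝ) :
    dot (XX S δ θ) (θ + δ) = supp S (θ + δ) := by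
  rw [dot_add, dot_XX, dop_XX]
  field_simp
  ring

theorem continuous_XX (hc : IsCompact S) (δ : ℝ) : Continuous (XX S δ) := by
  have h1 := continuous_supp hc
  have h2 : Continuous fun θ => supp S (θ + δ) := h1.comp (continuous_id.add continuous_const)
  have h3 : Continuous fun θ : ℝ => (((supp S θ * cos θ -
    (supp S (θ + δ) - cos δ * supp S θ) / sin δ * sin θ : ℝ) : ℂ) +
    ((supp S θ * sin θ + (supp S (θ + δ) - cos δ * supp S θ) / sin δ * cos θ : ℝ) : ℂ) *
      Complex.I) := by
    have h4 : Continuous fun θ : ℝ => (supp S θ * cos θ -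
      (supp S (θ + δ) - cos δ * supp S θ) / sin δ * sin θ : ℝ) := by
      fun_prop
    have h5 : Continuous fun θ : ℝ => (supp S θ * sin θ +
      (supp S (θ + δ) - cos δ * supp S θ) / sin δ * cos θ : ℝ) := by
      fun_prop
    fun_prop
  convert h3 using 1
  funext θ
  rw [← Complex.mk_eq_add_mul_I]
  rfl

/-- the normal cone of a point contains the angle between two normals -/
theorem normal_of_corner (hc : IsCompact S) {v : ℂ} (hv : v ∈ S) {A B : ℝ}
    (h0 : A < B) (hpi : B - A < π) (hA : dot v A = supp S A) (hB : dot v B = supp S B) {φ : ℝ}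
    (h1 : A ≤ φ) (h2 : φ ≤ B) : dot v φ = supp S φ := by
  have hs : 0 < sin (B - A) := sin_pos_of_pos_of_lt_pi (by linarith) hpi
  have hs1 : 0 ≤ sin (B - φ) := sin_nonneg_of_nonneg_of_le_pi (by linarith) (by linarith)
  have hs2 : 0 ≤ sin (φ - A) := sin_nonneg_of_nonneg_of_le_pi (by linarith) (by linarith)
  apply le_antisymm (dot_le_supp hc hv φ)
  obtain ⟨x, hx, hxe⟩ := exists_dot_eq_supp hc ⟨v, hv⟩ φ
  rw [← hxe]
  have e1 := dot_between x A B φ
  have e2 := dot_between v A B φ
  have h3 := mul_le_mul_of_nonneg_left (dot_le_supp hc hx A) hs1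
  have h4 := mul_le_mul_of_nonneg_left (dot_le_supp hc hx B) hs2
  rw [← hA] at h3
  rw [← hB] at h4
  have h5 : sin (B - A) * dot x φ ≤ sin (B - A) * dot v φ := by linarith
  exact le_of_mul_le_mul_left h5 hs

/-- two corners with overlapping normal cones agree -/
theorem corner_unique {v w : ℂ} {a b : ℝ} (h0 : a < b) (hpi : b - a < π)
    (hv : dot v a = supp S a) (hv' : dot v b = supp S b) (hw : dot w a = supp S a)
    (hw' : dot w b = supp S b) : v = w :=
  eq_of_dot (hv.trans hw.symm) (hv'.trans hw'.symm)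
    (sin_pos_of_pos_of_lt_pi (by linarith) hpi).ne'

/-- a normal cone of angle more than `π` -/
theorem eq_of_long (hc : IsCompact S) {v : ℂ} {a b : ℝ} (hab : π < b - a)
    (h : ∀ φ, a ≤ φ → φ ≤ b → dot v φ = supp S φ) {x : ℂ} (hx : x ∈ S) : x = v := by
  have key : ∀ φ, a ≤ φ → φ + π ≤ b → dot x φ = dot v φ := by
    intro φ h1 h2
    have e1 := dot_le_supp hc hx φ
    have e2 := dot_le_supp hc hx (φ + π)
    rw [← h φ h1 (by linarith [pi_pos])] at e1
    rw [← h (φ + π) (by linarith [pi_pos]) h2, dot_add_pi, dot_add_pi] at e2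
    linarith
  set ε := min (b - a - π) 1 with hε
  have hε0 : 0 < ε := lt_min (by linarith) one_pos
  have hε1 : ε ≤ b - a - π := min_le_left _ _
  have hε2 : ε ≤ 1 := min_le_right _ _
  refine eq_of_dot (key a le_rfl (by linarith)) (key (a + ε) (by linarith) (by linarith)) ?_
  refine (sin_pos_of_pos_of_lt_pi (by linarith) ?_).ne'
  linarith [pi_gt_three]

/-- maximal extension to the right -/
theorem exists_right (hc : IsCompact S) {v : ℂ} (hne : ∃ x ∈ S, x ≠ v) {p q : ℝ} (hpq : p ≤ q)
    (h : ∀ φ, p ≤ φ → φ ≤ q → dot v φ = supp S φ) :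
    ∃ b, q ≤ b ∧ (∀ φ, p ≤ φ → φ ≤ b → dot v φ = supp S φ) ∧
      ∃ᶠ φ in 𝓝[>] b, dot v φ ≠ supp S φ := by
  obtain ⟨x, hx, hxv⟩ := hne
  set B := {b | q ≤ b ∧ ∀ φ, p ≤ φ → φ ≤ b → dot v φ = supp S φ} with hB
  have hq : q ∈ B := ⟨le_rfl, h⟩
  have hbdd : BddAbove B := by
    refine ⟨p + π, ?_⟩
    rintro b ⟨hb1, hb2⟩
    by_contra hcon
    push Not at hcon
    exact hxv (eq_of_long hc (by linarith) hb2 hx)
  have hle : q ≤ sSup B := le_csSup hbdd hq
  have hlt : ∀ φ, p ≤ φ → φ < sSup B → dot v φ = supp S φ := by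
    intro φ h1 h2
    obtain ⟨b, hb, hb2⟩ := exists_lt_of_lt_csSup ⟨q, hq⟩ h2
    exact hb.2 φ h1 hb2.le
  have hcl : dot v (sSup B) = supp S (sSup B) := by
    rcases eq_or_lt_of_le hle with he | hlt'
    · rw [← he]; exact h q hpq le_rfl
    · have hcont : IsClosed {φ | dot v φ = supp S φ} :=
        isClosed_eq (by unfold dot; fun_prop) (continuous_supp hc)
      have h1 : Ioo q (sSup B) ⊆ {φ | dot v φ = supp S φ} := fun φ hφ =>
        hlt φ (by linarith [hφ.1]) hφ.2
      have h2 : sSup B ∈ closure (Ioo q (sSup B)) := by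
        rw [closure_Ioo hlt'.ne]
        exact ⟨hle, le_rfl⟩
      exact (hcont.closure_subset_iff.2 h1) h2
  refine ⟨sSup B, hle, ?_, ?_⟩
  · intro φ h1 h2
    rcases eq_or_lt_of_le h2 with he | hl
    · rw [he]; exact hcl
    · exact hlt φ h1 hl
  · intro hcon
    simp only [ne_eq, not_not] at hcon
    rw [eventually_nhdsWithin_iff, Metric.eventually_nhds_iff] at hcon
    obtain ⟨ε, hε, hcon⟩ := hcon
    have hmem : sSup B + ε / 2 ∈ B := by
      refine ⟨by linarith, ?_⟩
      intro φ h1 h2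
      rcases le_or_gt φ (sSup B) with h3 | h3
      · rcases eq_or_lt_of_le h3 with he | hl
        · rw [he]; exact hcl
        · exact hlt φ h1 hl
      · apply hcon _ h3
        rw [Real.dist_eq, abs_of_pos (by linarith)]
        linarith
    have := le_csSup hbdd hmem
    linarith

/-- maximal extension to the left -/
theorem exists_left (hc : IsCompact S) {v : ℂ} (hne : ∃ x ∈ S, x ≠ v) {p q : ℝ} (hpq : p ≤ q)
    (h : ∀ φ, p ≤ φ → φ ≤ q → dot v φ = supp S φ) :
    ∃ a, a ≤ p ∧ (∀ φ, a ≤ φ → φ ≤ q → dot v φ = supp S φ) ∧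
      ∃ᶠ φ in 𝓝[<] a, dot v φ ≠ supp S φ := by
  obtain ⟨x, hx, hxv⟩ := hne
  set A := {a | a ≤ p ∧ ∀ φ, a ≤ φ → φ ≤ q → dot v φ = supp S φ} with hA
  have hp : p ∈ A := ⟨le_rfl, h⟩
  have hbdd : BddBelow A := by
    refine ⟨q - π, ?_⟩
    rintro a ⟨ha1, ha2⟩
    by_contra hcon
    push Not at hcon
    exact hxv (eq_of_long hc (by linarith) ha2 hx)
  have hle : sInf A ≤ p := csInf_le hbdd hp
  have hlt : ∀ φ, φ ≤ q → sInf A < φ → dot v φ = supp S φ := by
    intro φ h1 h2
    obtain ⟨a, ha, ha2⟩ := exists_lt_of_csInf_lt ⟨p, hp⟩ h2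
    exact ha.2 φ ha2.le h1
  have hcl : dot v (sInf A) = supp S (sInf A) := by
    rcases eq_or_lt_of_le hle with he | hlt'
    · rw [he]; exact h p le_rfl hpq
    · have hcont : IsClosed {φ | dot v φ = supp S φ} :=
        isClosed_eq (by unfold dot; fun_prop) (continuous_supp hc)
      have h1 : Ioo (sInf A) p ⊆ {φ | dot v φ = supp S φ} := fun φ hφ =>
        hlt φ (by linarith [hφ.2]) hφ.1
      have h2 : sInf A ∈ closure (Ioo (sInf A) p) := by
        rw [closure_Ioo hlt'.ne]
        exact ⟨le_rfl, hle⟩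
      exact (hcont.closure_subset_iff.2 h1) h2
  refine ⟨sInf A, hle, ?_, ?_⟩
  · intro φ h1 h2
    rcases eq_or_lt_of_le h1 with he | hl
    · rw [← he]; exact hcl
    · exact hlt φ h2 hl
  · intro hcon
    simp only [ne_eq, not_not] at hcon
    rw [eventually_nhdsWithin_iff, Metric.eventually_nhds_iff] at hcon
    obtain ⟨ε, hε, hcon⟩ := hcon
    have hmem : sInf A - ε / 2 ∈ A := by
      refine ⟨by linarith, ?_⟩
      intro φ h1 h2
      rcases le_or_gt (sInf A) φ with h3 | h3
      · rcases eq_or_lt_of_le h3 with he | hl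
        · rw [← he]; exact hcl
        · exact hlt φ h2 hl
      · apply hcon _ h3
        rw [Real.dist_eq, abs_of_neg (by linarith)]
        linarith
    have := csInf_le hbdd hmem
    linarith

/-- corners of a set whose isoptic lies on a circle -/
theorem corner_main (hc : IsCompact S) {δ : ℝ} (hδ : 0 < δ) (hδ' : δ < π) {O : ℂ} {R : ℝ}
    (hR : 0 < R) (H : ∀ θ, XX S δ θ ∉ S → ‖XX S δ θ - O‖ = R) {v : ℂ}
    (hne : ∃ x ∈ S, x ≠ v) {p q : ℝ} (hpq : δ ≤ q - p)
    (h : ∀ φ, p ≤ φ → φ ≤ q → dot v φ = supp S φ) : ‖v - O‖ = R ∧ q - p ≤ 2 * δ := by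
  have hs : 0 < sin δ := sin_pos_of_pos_of_lt_pi hδ hδ'
  obtain ⟨b, hqb, hb, hbf⟩ := exists_right hc hne (by linarith) h
  obtain ⟨a, hap, ha, haf⟩ := exists_left hc hne (by linarith) h
  have hab : ∀ φ, a ≤ φ → φ ≤ b → dot v φ = supp S φ := by
    intro φ h1 h2
    rcases le_total φ q with h3 | h3
    · exact ha φ h1 h3
    · exact hb φ (by linarith) h2
  have hlen : b - a ≤ π := by
    by_contra hcon
    push Not at hcon
    obtain ⟨x, hx, hxv⟩ := hne
    exact hxv (eq_of_long hc hcon hab hx)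
  have hXcont := continuous_XX hc δ
  -- near `b`
  have hbf' : ∃ᶠ φ in 𝓝[>] b, XX S δ (φ - δ) ∉ S ∧ XX S δ (φ - δ) ≠ v ∧
      dot (XX S δ (φ - δ)) (φ - δ) = dot v (φ - δ) := by
    have hnear : ∀ᶠ φ in 𝓝[>] b, b < φ ∧ φ < b + δ := by
      have : Ioo b (b + δ) ∈ 𝓝[>] b := Ioo_mem_nhdsGT (by linarith)
      filter_upwards [this] with φ hφ using hφ
    refine (hbf.and_eventually hnear).mono ?_
    rintro φ ⟨h1, h2, h3⟩
    have e1 : dot (XX S δ (φ - δ)) φ = supp S φ := by
      have := dot_XX' S hs.ne' (φ - δ)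
      rwa [sub_add_cancel] at this
    have hXv : XX S δ (φ - δ) ≠ v := by
      intro he
      rw [he] at e1
      exact h1 e1
    refine ⟨?_, hXv, ?_⟩
    · intro hmem
      apply hXv
      have e2 : dot (XX S δ (φ - δ)) b = supp S b :=
        normal_of_corner hc hmem (A := φ - δ) (B := φ) (by linarith) (by linarith)
          (dot_XX S δ _) e1 (by linarith) (by linarith)
      refine corner_unique (S := S) (a := φ - δ) (b := b) (by linarith) (by linarith)
        (dot_XX S δ _) e2 (hab _ (by linarith) (by linarith)) (hab _ (by linarith) le_rfl)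
    · rw [dot_XX]
      exact (hab _ (by linarith) (by linarith)).symm
  have hXb : XX S δ (b - δ) = v := by
    have e1 : dot (XX S δ (b - δ)) b = supp S b := by
      have := dot_XX' S hs.ne' (b - δ)
      rwa [sub_add_cancel] at this
    exact corner_unique (S := S) (a := b - δ) (b := b) (by linarith) (by linarith)
      (dot_XX S δ _) e1 (hab _ (by linarith) (by linarith)) (hab _ (by linarith) le_rfl)
  have hvR : ‖v - O‖ = R := by
    by_contra hcon
    have hcont : Continuous fun φ => ‖XX S δ (φ - δ) - O‖ :=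
      ((hXcont.comp (continuous_id.sub continuous_const)).sub continuous_const).norm
    have h1 : ∀ᶠ φ in 𝓝 b, ‖XX S δ (φ - δ) - O‖ ≠ R := by
      apply hcont.continuousAt.eventually_ne
      rw [hXb]
      exact hcon
    have h2 := (hbf'.and_eventually (h1.filter_mono nhdsWithin_le_nhds)).exists
    obtain ⟨φ, ⟨h3, _, _⟩, h4⟩ := h2
    exact h4 (H _ h3)
  have hpos_b : dop (v - O) (b - δ) = 0 := by
    by_contra hcon
    have hcont : Continuous fun φ => dop (XX S δ (φ - δ) - O) (φ - δ) + dop (v - O) (φ - δ) := by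
      have h1 : Continuous fun φ => XX S δ (φ - δ) :=
        hXcont.comp (continuous_id.sub continuous_const)
      unfold dop
      have h2 : Continuous fun φ => (XX S δ (φ - δ) - O).re :=
        Complex.continuous_re.comp (h1.sub continuous_const)
      have h3 : Continuous fun φ => (XX S δ (φ - δ) - O).im :=
        Complex.continuous_im.comp (h1.sub continuous_const)
      fun_prop
    have h1 : ∀ᶠ φ in 𝓝 b, dop (XX S δ (φ - δ) - O) (φ - δ) + dop (v - O) (φ - δ) ≠ 0 := by
      apply hcont.continuousAt.eventually_ne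
      rw [hXb]
      intro h0
      apply hcon
      linarith
    have h2 := (hbf'.and_eventually (h1.filter_mono nhdsWithin_le_nhds)).exists
    obtain ⟨φ, ⟨h3, h3', h3''⟩, h4⟩ := h2
    have h5 := sq_dot_add_sq_dop (XX S δ (φ - δ) - O) (φ - δ)
    have h6 := sq_dot_add_sq_dop (v - O) (φ - δ)
    have h7 : dot (XX S δ (φ - δ) - O) (φ - δ) = dot (v - O) (φ - δ) := by
      rw [dot_sub, dot_sub, h3'']
    rw [H _ h3, h7] at h5
    rw [hvR] at h6
    have h8 : (dop (XX S δ (φ - δ) - O) (φ - δ) - dop (v - O) (φ - δ)) *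
        (dop (XX S δ (φ - δ) - O) (φ - δ) + dop (v - O) (φ - δ)) = 0 := by
      linear_combination h5 - h6
    rcases mul_eq_zero.1 h8 with h9 | h9
    · apply h3'
      rw [dop_sub, dop_sub] at h9
      have h10 : dop (XX S δ (φ - δ) - v) (φ - δ) = 0 := by rw [dop_sub]; linarith
      have h11 : dot (XX S δ (φ - δ) - v) (φ - δ) = 0 := by rw [dot_sub]; linarith
      have h12 := sq_dot_add_sq_dop (XX S δ (φ - δ) - v) (φ - δ)
      rw [h10, h11] at h12
      have h13 : ‖XX S δ (φ - δ) - v‖ = 0 := by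
        have : ‖XX S δ (φ - δ) - v‖ ^ 2 = 0 := by rw [← h12]; ring
        exact pow_eq_zero_iff (two_ne_zero) |>.1 this
      exact sub_eq_zero.1 (norm_eq_zero.1 h13)
    · exact h4 h9
  -- near `a`
  have haf' : ∃ᶠ φ in 𝓝[<] a, XX S δ φ ∉ S ∧ XX S δ φ ≠ v ∧
      dot (XX S δ φ) (φ + δ) = dot v (φ + δ) := by
    have hnear : ∀ᶠ φ in 𝓝[<] a, a - δ < φ ∧ φ < a := by
      have : Ioo (a - δ) a ∈ 𝓝[<] a := Ioo_mem_nhdsLT (by linarith)
      filter_upwards [this] with φ hφ using hφ
    refine (haf.and_eventually hnear).mono ?_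
    rintro φ ⟨h1, h2, h3⟩
    have e1 : dot (XX S δ φ) φ = supp S φ := dot_XX S δ φ
    have e1' := dot_XX' S hs.ne' φ
    have hXv : XX S δ φ ≠ v := by
      intro he
      rw [he] at e1
      exact h1 e1
    refine ⟨?_, hXv, ?_⟩
    · intro hmem
      apply hXv
      have e2 : dot (XX S δ φ) a = supp S a :=
        normal_of_corner hc hmem (A := φ) (B := φ + δ) (by linarith) (by linarith)
          e1 e1' (by linarith) (by linarith)
      refine corner_unique (S := S) (a := a) (b := φ + δ) (by linarith) (by linarith)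
        e2 e1' (hab _ le_rfl (by linarith)) (hab _ (by linarith) (by linarith))
    · rw [e1']
      exact (hab _ (by linarith) (by linarith)).symm
  have hXa : XX S δ a = v :=
    corner_unique (S := S) (a := a) (b := a + δ) (by linarith) (by linarith)
      (dot_XX S δ _) (dot_XX' S hs.ne' _) (hab _ le_rfl (by linarith))
      (hab _ (by linarith) (by linarith))
  have hpos_a : dop (v - O) (a + δ) = 0 := by
    by_contra hcon
    have hcont : Continuous fun φ => dop (XX S δ φ - O) (φ + δ) + dop (v - O) (φ + δ) := by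
      unfold dop
      have h2 : Continuous fun φ => (XX S δ φ - O).re :=
        Complex.continuous_re.comp (hXcont.sub continuous_const)
      have h3 : Continuous fun φ => (XX S δ φ - O).im :=
        Complex.continuous_im.comp (hXcont.sub continuous_const)
      fun_prop
    have h1 : ∀ᶠ φ in 𝓝 a, dop (XX S δ φ - O) (φ + δ) + dop (v - O) (φ + δ) ≠ 0 := by
      apply hcont.continuousAt.eventually_ne
      rw [hXa]
      intro h0
      apply hcon
      linarith
    have h2 := (haf'.and_eventually (h1.filter_mono nhdsWithin_le_nhds)).exists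
    obtain ⟨φ, ⟨h3, h3', h3''⟩, h4⟩ := h2
    have h5 := sq_dot_add_sq_dop (XX S δ φ - O) (φ + δ)
    have h6 := sq_dot_add_sq_dop (v - O) (φ + δ)
    have h7 : dot (XX S δ φ - O) (φ + δ) = dot (v - O) (φ + δ) := by
      rw [dot_sub, dot_sub, h3'']
    rw [H _ h3, h7] at h5
    rw [hvR] at h6
    have h8 : (dop (XX S δ φ - O) (φ + δ) - dop (v - O) (φ + δ)) *
        (dop (XX S δ φ - O) (φ + δ) + dop (v - O) (φ + δ)) = 0 := by
      linear_combination h5 - h6
    rcases mul_eq_zero.1 h8 with h9 | h9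
    · apply h3'
      rw [dop_sub, dop_sub] at h9
      have h10 : dop (XX S δ φ - v) (φ + δ) = 0 := by rw [dop_sub]; linarith
      have h11 : dot (XX S δ φ - v) (φ + δ) = 0 := by rw [dot_sub]; linarith
      have h12 := sq_dot_add_sq_dop (XX S δ φ - v) (φ + δ)
      rw [h10, h11] at h12
      have h13 : ‖XX S δ φ - v‖ = 0 := by
        have : ‖XX S δ φ - v‖ ^ 2 = 0 := by rw [← h12]; ring
        exact pow_eq_zero_iff (two_ne_zero) |>.1 this
      exact sub_eq_zero.1 (norm_eq_zero.1 h13)
    · exact h4 h9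
  refine ⟨hvR, ?_⟩
  -- the two directions agree
  have hsin : sin ((b - δ) - (a + δ)) = 0 := by
    by_contra hne0
    have := eq_zero_of_dop hpos_a hpos_b hne0
    rw [this, norm_zero] at hvR
    linarith
  have h2 : (b - δ) - (a + δ) ≤ 0 := by
    by_contra hcon
    push Not at hcon
    have := sin_pos_of_pos_of_lt_pi hcon (by linarith)
    linarith
  linarith

end Pool.Agent.Q155.Iso
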