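import Mathlib
import Pool.Agent.Q155.Iso.Corner

/-!
A compact convex set with two circular isoptics is a disk.
-/

set_option autoImplicit false
open Set Real Filter Topology

namespace Pool.Agent.Q155.Iso

variable {S : Set ℂ}

theorem dot_sub_angle (z : ℂ) (φ δ : ℝ) : dot z (φ - δ) = cos δ * dot z φ - sin δ * dop z φ := by
  simp only [dot, dop, cos_sub, sin_sub]; ring

theorem dop_add (z : ℂ) (φ δ : ℝ) : dop z (φ + δ) = cos δ * dop z φ - sin δ * dot z φ := by
  simp only [dot, dop, cos_add, sin_add]; ring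

theorem dop_sub_angle (z : ℂ) (φ δ : ℝ) : dop z (φ - δ) = cos δ * dop z φ + sin δ * dot z φ := by
  simp only [dot, dop, cos_sub, sin_sub]; ring

/-- what a circular isoptic gives for the support function `h` -/
structure Circ (h : ℝ → ℝ) (δ : ℝ) (R : ℝ) : Prop where
  eq : ∀ θ, h θ ^ 2 + h (θ + δ) ^ 2 - 2 * cos δ * (h θ * h (θ + δ)) = R ^ 2 * sin δ ^ 2
  per : ∀ θ, h (θ + 2 * δ) = h θ
  pos : ∀ θ, 0 ≤ h (θ + δ) - cos δ * h θ

theorem one_circle (hc : IsCompact S) {α : ℝ} (hα : 0 < α) (hα' : α < π) {O : ℂ} {R : ℝ}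
    (hR : 0 < R) (hcl : closure (isoptic S α) = Metric.sphere O R) :
    ¬ S.Subsingleton ∧ Circ (fun θ => supp S θ - dot O θ) (π - α) R := by
  have hδ : 0 < π - α := by linarith
  have hδ' : π - α < π := by linarith
  obtain ⟨δ, hδe⟩ : ∃ δ, δ = π - α := ⟨_, rfl⟩
  rw [← hδe] at hδ hδ' ⊢
  have hs : 0 < sin δ := sin_pos_of_pos_of_lt_pi hδ hδ'
  have hns : ¬ S.Subsingleton := by
    intro hsub
    have h1 : isoptic S α = ∅ := by
      rw [Set.eq_empty_iff_forall_notMem]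
      rintro P ⟨hP, hPα⟩
      have := sight_subsingleton hsub hP
      rw [hPα] at this
      linarith
    rw [h1, closure_empty] at hcl
    have h2 : O + (R : ℂ) ∈ Metric.sphere O R := by
      rw [mem_sphere_iff_norm, add_sub_cancel_left, Complex.norm_real, Real.norm_eq_abs,
        abs_of_pos hR]
    rw [← hcl] at h2
    exact h2
  refine ⟨hns, ?_⟩
  have hne : S.Nonempty := by
    rw [Set.not_subsingleton_iff] at hns
    exact hns.nonempty
  have hother : ∀ v : ℂ, ∃ x ∈ S, x ≠ v := by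
    intro v
    by_contra hcon
    push Not at hcon
    exact hns fun x hx y hy => (hcon x hx).trans (hcon y hy).symm
  have H : ∀ θ, XX S δ θ ∉ S → ‖XX S δ θ - O‖ = R := by
    intro θ hθ
    have h1 : XX S δ θ ∈ isoptic S α := by
      refine ⟨hθ, ?_⟩
      rw [sight_eq hc hne hδ hδ' (dot_XX S δ θ) (dot_XX' S hs.ne' θ) hθ, hδe]
      ring
    have h2 := subset_closure h1
    rw [hcl, mem_sphere_iff_norm] at h2
    exact h2
  have hE : ∀ θ, ‖XX S δ θ - O‖ = R := by
    intro θ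
    by_cases hθ : XX S δ θ ∈ S
    · refine (corner_main hc hδ hδ' hR H (hother _) (p := θ) (q := θ + δ) (by linarith) ?_).1
      intro φ h1 h2
      exact normal_of_corner hc hθ (by linarith) (by linarith) (dot_XX S δ θ)
        (dot_XX' S hs.ne' θ) h1 h2
    · exact H θ hθ
  have hdot : ∀ θ, dot (XX S δ θ - O) θ = supp S θ - dot O θ := fun θ => by
    rw [dot_sub, dot_XX]
  have hdot' : ∀ θ, dot (XX S δ θ - O) (θ + δ) = supp S (θ + δ) - dot O (θ + δ) := fun θ => by
    rw [dot_sub, dot_XX' S hs.ne']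
  have heq : ∀ θ, (supp S θ - dot O θ) ^ 2 + (supp S (θ + δ) - dot O (θ + δ)) ^ 2 -
      2 * cos δ * ((supp S θ - dot O θ) * (supp S (θ + δ) - dot O (θ + δ))) =
      R ^ 2 * sin δ ^ 2 := by
    intro θ
    have h1 := sq_dot_add_sq_dop (XX S δ θ - O) θ
    have h2 := dot_add (XX S δ θ - O) θ δ
    rw [hE] at h1
    rw [← hdot, ← hdot']
    rw [h2]
    have h3 := sin_sq_add_cos_sq δ
    generalize dot (XX S δ θ - O) θ = a at *
    generalize dop (XX S δ θ - O) θ = b at *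
    linear_combination a ^ 2 * (-1 : ℝ) * h3 + sin δ ^ 2 * h1
  have hU : ∀ θ, supp S (θ + 2 * δ) - dot O (θ + 2 * δ) ≠ supp S θ - dot O θ →
      XX S δ θ ∈ S ∧ ∀ φ, θ ≤ φ → φ ≤ θ + 2 * δ → dot (XX S δ θ) φ = supp S φ := by
    intro θ hθ
    have e1 := heq θ
    have e2 := heq (θ + δ)
    have hθ2 : θ + δ + δ = θ + 2 * δ := by ring
    rw [hθ2] at e2
    have e3 : (supp S θ - dot O θ) + (supp S (θ + 2 * δ) - dot O (θ + 2 * δ)) =
        2 * cos δ * (supp S (θ + δ) - dot O (θ + δ)) := by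
      have h4 : (supp S (θ + 2 * δ) - dot O (θ + 2 * δ) - (supp S θ - dot O θ)) *
          ((supp S θ - dot O θ) + (supp S (θ + 2 * δ) - dot O (θ + 2 * δ)) -
          2 * cos δ * (supp S (θ + δ) - dot O (θ + δ))) = 0 := by
        linear_combination e2 - e1
      rcases mul_eq_zero.1 h4 with h5 | h5
      · exact absurd (sub_eq_zero.1 h5) hθ
      · exact sub_eq_zero.1 h5
    have three : ∀ z : ℂ, dot z (θ + 2 * δ) = 2 * cos δ * dot z (θ + δ) - dot z θ := by
      intro z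
      have h5 := dot_add z (θ + δ) δ
      have h6 := dot_sub_angle z (θ + δ) δ
      rw [hθ2] at h5
      rw [add_sub_cancel_right] at h6
      linarith
    set v := XX S δ θ with hv
    have a1 : dot v θ = supp S θ := dot_XX S δ θ
    have a2 : dot v (θ + δ) = supp S (θ + δ) := dot_XX' S hs.ne' θ
    have a3 : dot v (θ + 2 * δ) = supp S (θ + 2 * δ) := by
      rw [three, a1, a2]
      have := three O
      linarith
    obtain ⟨y, hy, hye⟩ := exists_dot_eq_supp hc hne (θ + δ)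
    have b1 := dot_le_supp hc hy θ
    have b3 := dot_le_supp hc hy (θ + 2 * δ)
    have b4 := three y
    have b5 := three v
    have b6 : dot y θ = dot v θ := by
      rw [hye] at b4
      rw [a2, a3] at b5
      rw [a1] at b5 ⊢
      linarith
    have hyv : y = v := by
      refine eq_of_dot (φ := θ) (ψ := θ + δ) b6 (hye.trans a2.symm) ?_
      rw [add_sub_cancel_left]
      exact hs.ne'
    have hvS : v ∈ S := hyv ▸ hy
    refine ⟨hvS, ?_⟩
    intro φ h1 h2
    rcases le_total φ (θ + δ) with h3 | h3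
    · exact normal_of_corner hc hvS (A := θ) (B := θ + δ) (by linarith) (by linarith) a1 a2 h1 h3
    · exact normal_of_corner hc hvS (A := θ + δ) (B := θ + 2 * δ) (by linarith) (by linarith)
        a2 a3 h3 h2
  have hper : ∀ θ, supp S (θ + 2 * δ) - dot O (θ + 2 * δ) = supp S θ - dot O θ := by
    intro θ
    by_contra hθ
    have hcont : Continuous fun θ => (supp S (θ + 2 * δ) - dot O (θ + 2 * δ)) -
        (supp S θ - dot O θ) := by
      have h1 := continuous_supp hc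
      have h2 : Continuous fun θ => supp S (θ + 2 * δ) := h1.comp (by fun_prop)
      unfold dot
      fun_prop
    have hev : ∀ᶠ φ in 𝓝 θ, (supp S (φ + 2 * δ) - dot O (φ + 2 * δ)) -
        (supp S φ - dot O φ) ≠ 0 := by
      apply hcont.continuousAt.eventually_ne
      exact sub_ne_zero.2 hθ
    have hev2 : ∀ᶠ φ in 𝓝[>] θ, φ ∈ Ioo θ (θ + δ) := Ioo_mem_nhdsGT (by linarith)
    obtain ⟨φ, hφ1, hφ2⟩ := ((hev.filter_mono nhdsWithin_le_nhds).and hev2).exists
    obtain ⟨c1, c2⟩ := hU θ hθ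
    obtain ⟨c3, c4⟩ := hU φ (sub_ne_zero.1 hφ1)
    have he : XX S δ θ = XX S δ φ :=
      corner_unique (S := S) (a := φ) (b := θ + δ) (by linarith [hφ2.2]) (by linarith [hφ2.1])
        (c2 _ (by linarith [hφ2.1]) (by linarith [hφ2.2])) (c2 _ (by linarith) (by linarith))
        (c4 _ le_rfl (by linarith)) (c4 _ (by linarith [hφ2.2]) (by linarith [hφ2.1]))
    have := (corner_main hc hδ hδ' hR H (hother (XX S δ θ)) (p := θ) (q := φ + 2 * δ)
      (by linarith [hφ2.1]) (by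
        intro ψ h1 h2
        rcases le_total ψ (θ + 2 * δ) with h3 | h3
        · exact c2 ψ h1 h3
        · rw [he]
          exact c4 ψ (by linarith [hφ2.2]) h2)).2
    linarith [hφ2.1]
  refine ⟨heq, hper, ?_⟩
  intro θ
  obtain ⟨y, hy, hye⟩ := exists_dot_eq_supp hc hne θ
  have h1 := dot_le_supp hc hy (θ + δ)
  have h2 := dot_le_supp hc hy (θ - δ)
  have h3 := dot_add y θ δ
  have h4 := dot_sub_angle y θ δ
  have h5 := dot_add O θ δ
  have h6 := dot_sub_angle O θ δ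
  have h7 := hper (θ - δ)
  have h8 : θ - δ + 2 * δ = θ + δ := by ring
  rw [h8] at h7
  show 0 ≤ supp S (θ + δ) - dot O (θ + δ) - cos δ * (supp S θ - dot O θ)
  rw [hye] at h3 h4
  linarith

theorem mono_step {c K a b a' b' : ℝ} (hc : c ^ 2 < 1)
    (h1 : a ^ 2 + b ^ 2 - 2 * c * (a * b) = K) (h1' : a' ^ 2 + b' ^ 2 - 2 * c * (a' * b') = K)
    (h2 : 0 ≤ b - c * a) (h3 : 0 ≤ a - c * b) (h2' : 0 ≤ b' - c * a') (h3' : 0 ≤ a' - c * b')
    (haa : a < a') : b' < b := by
  by_contra hcon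
  push Not at hcon
  have e : (a' - a) * ((a' - c * b') + (a - c * b)) +
      (b' - b) * ((b' - c * a') + (b - c * a)) = 0 := by
    linear_combination h1' - h1
  have e1 : 0 ≤ (b' - b) * ((b' - c * a') + (b - c * a)) :=
    mul_nonneg (by linarith) (by linarith)
  have e2 : 0 ≤ (a' - a) * ((a' - c * b') + (a - c * b)) :=
    mul_nonneg (by linarith) (by linarith)
  have e3 : (a' - a) * ((a' - c * b') + (a - c * b)) = 0 := by linarith
  have e4 : (a' - c * b') + (a - c * b) = 0 := by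
    rcases mul_eq_zero.1 e3 with h | h
    · linarith
    · exact h
  have e5 : a = c * b := by linarith
  have e6 : a' = c * b' := by linarith
  have f1 : b ^ 2 * (1 - c ^ 2) = K := by rw [← h1, e5]; ring
  have f2 : b' ^ 2 * (1 - c ^ 2) = K := by rw [← h1', e6]; ring
  have f3 : 0 ≤ b * (1 - c ^ 2) := by rw [e5] at h2; linarith
  have f4 : 0 ≤ b' * (1 - c ^ 2) := by rw [e6] at h2'; linarith
  have hc' : 0 < 1 - c ^ 2 := by linarith
  have g1 : 0 ≤ b := nonneg_of_mul_nonneg_left f3 hc'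
  have g2 : 0 ≤ b' := nonneg_of_mul_nonneg_left f4 hc'
  have g3 : b ^ 2 = b' ^ 2 := by
    have : (b ^ 2 - b' ^ 2) * (1 - c ^ 2) = 0 := by linarith
    rcases mul_eq_zero.1 this with h | h
    · linarith
    · linarith
  have g4 : b = b' := (pow_left_inj₀ g1 g2 two_ne_zero).1 g3
  rw [e5, e6, g4] at haa
  exact lt_irrefl _ haa

theorem const_of_sq {f : ℝ → ℝ} (hf : Continuous f) {k : ℝ} (h : ∀ x, f x ^ 2 = k) (x y : ℝ) :
    f x = f y := by
  by_contra hne
  have h1 : (f x - f y) * (f x + f y) = 0 := by linear_combination h x - h y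
  have h2 : f x + f y = 0 := by
    rcases mul_eq_zero.1 h1 with h | h
    · exact absurd (sub_eq_zero.1 h) hne
    · exact h
  have h3 : (0 : ℝ) ∈ range f := by
    rcases le_total (f x) 0 with h4 | h4
    · exact mem_range_of_exists_le_of_exists_ge hf ⟨x, h4⟩ ⟨y, by linarith⟩
    · exact mem_range_of_exists_le_of_exists_ge hf ⟨y, by linarith⟩ ⟨x, h4⟩
  obtain ⟨z, hz⟩ := h3
  have h4 := h z
  rw [hz] at h4
  have h5 := h x
  rw [← h4] at h5
  have h6 : f x = 0 := by nlinarith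
  have h7 : f y = 0 := by linarith
  exact hne (h6.trans h7.symm)

theorem two_circles {h : ℝ → ℝ} (hcont : Continuous h) {δ ε : ℝ} {P R : ℝ}
    (hδ : 0 < δ) (hδ' : δ < π) (hε : 0 < ε) (hε' : ε < π) (hne : δ ≠ ε)
    (h1 : Circ h δ P) (h2 : Circ h ε R) : ∀ x y, h x = h y := by
  have hs1 : 0 < sin δ := sin_pos_of_pos_of_lt_pi hδ hδ'
  have hs2 : 0 < sin ε := sin_pos_of_pos_of_lt_pi hε hε'
  have hc1 : cos δ ^ 2 < 1 := by nlinarith [sin_sq_add_cos_sq δ]
  have hc2 : cos ε ^ 2 < 1 := by nlinarith [sin_sq_add_cos_sq ε]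
  have sym : ∀ {γ Q : ℝ}, Circ h γ Q → ∀ θ, 0 ≤ h θ - cos γ * h (θ + γ) := by
    intro γ Q hg θ
    have e1 := hg.pos (θ + γ)
    have e2 := hg.per θ
    have e3 : θ + γ + γ = θ + 2 * γ := by ring
    rw [e3, e2] at e1
    exact e1
  have key : ∀ θ, h (θ + δ) = h (θ + ε) := by
    intro θ
    have a1 := h1.eq θ
    have a2 := h1.eq (θ + ε)
    have a3 := h2.eq θ
    have a4 := h2.eq (θ + δ)
    have b1 := h1.pos θ
    have b2 := h1.pos (θ + ε)
    have b3 := h2.pos θ
    have b4 := h2.pos (θ + δ)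
    have c1 := sym h1 θ
    have c2 := sym h1 (θ + ε)
    have c3 := sym h2 θ
    have c4 := sym h2 (θ + δ)
    have e : θ + ε + δ = θ + δ + ε := by ring
    rw [e] at a2 b2 c2
    rcases lt_trichotomy (h (θ + δ)) (h (θ + ε)) with hlt | he | hgt
    · exfalso
      have d1 := mono_step hc1 (K := P ^ 2 * sin δ ^ 2) (a := h (θ + δ)) (b := h θ) (a' := h (θ + ε))
        (b' := h (θ + δ + ε)) (by linarith) (by linarith) c1 b1 b2 c2 hlt
      have d2 := mono_step hc2 (K := R ^ 2 * sin ε ^ 2) (a := h (θ + δ)) (b := h (θ + δ + ε)) (a' := h (θ + ε))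
        (b' := h θ) (by linarith) (by linarith) b4 c4 c3 b3 hlt
      linarith
    · exact he
    · exfalso
      have d1 := mono_step hc1 (K := P ^ 2 * sin δ ^ 2) (a := h (θ + ε)) (b := h (θ + δ + ε)) (a' := h (θ + δ))
        (b' := h θ) (by linarith) (by linarith) b2 c2 c1 b1 hgt
      have d2 := mono_step hc2 (K := R ^ 2 * sin ε ^ 2) (a := h (θ + ε)) (b := h θ) (a' := h (θ + δ))
        (b' := h (θ + δ + ε)) (by linarith) (by linarith) c3 b3 b4 c4 hgt
      linarith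
  have hcne : cos δ ≠ cos ε := by
    intro he
    exact hne (injOn_cos ⟨hδ.le, hδ'.le⟩ ⟨hε.le, hε'.le⟩ he)
  have hprod : ∀ θ, h θ * h (θ + δ) =
      (R ^ 2 * sin ε ^ 2 - P ^ 2 * sin δ ^ 2) / (2 * (cos δ - cos ε)) := by
    intro θ
    rw [eq_div_iff (mul_ne_zero two_ne_zero (sub_ne_zero.2 hcne))]
    have a1 := h1.eq θ
    have a3 := h2.eq θ
    rw [← key θ] at a3
    linear_combination a3 - a1
  have hsq : ∀ θ, h θ ^ 2 + h (θ + δ) ^ 2 = P ^ 2 * sin δ ^ 2 + 2 * cos δ *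
      ((R ^ 2 * sin ε ^ 2 - P ^ 2 * sin δ ^ 2) / (2 * (cos δ - cos ε))) := by
    intro θ
    have a1 := h1.eq θ
    rw [hprod θ] at a1
    linarith
  have hcs : Continuous fun θ => h (θ + δ) := hcont.comp (by fun_prop)
  intro x y
  have f1 := const_of_sq (f := fun θ => h θ + h (θ + δ)) (by fun_prop)
    (k := P ^ 2 * sin δ ^ 2 + 2 * cos δ *
      ((R ^ 2 * sin ε ^ 2 - P ^ 2 * sin δ ^ 2) / (2 * (cos δ - cos ε))) +
      2 * ((R ^ 2 * sin ε ^ 2 - P ^ 2 * sin δ ^ 2) / (2 * (cos δ - cos ε))))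
    (fun θ => by rw [← hsq θ, ← hprod θ]; ring) x y
  have f2 := const_of_sq (f := fun θ => h θ - h (θ + δ)) (by fun_prop)
    (k := P ^ 2 * sin δ ^ 2 + 2 * cos δ *
      ((R ^ 2 * sin ε ^ 2 - P ^ 2 * sin δ ^ 2) / (2 * (cos δ - cos ε))) -
      2 * ((R ^ 2 * sin ε ^ 2 - P ^ 2 * sin δ ^ 2) / (2 * (cos δ - cos ε))))
    (fun θ => by rw [← hsq θ, ← hprod θ]; ring) x y
  linarith

theorem centre_eq {h : ℝ → ℝ} {O P : ℂ} {δ ε : ℝ} (hs1 : sin δ ≠ 0) (hs2 : sin ε ≠ 0)
    (h1 : ∀ θ, h (θ + 2 * δ) - dot O (θ + 2 * δ) = h θ - dot O θ)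
    (h2 : ∀ θ, h (θ + 2 * ε) - dot P (θ + 2 * ε) = h θ - dot P θ) : O = P := by
  have hD : ∀ θ, dot (P - O) (θ + 2 * ε) - dot (P - O) θ =
      dot (P - O) (θ + 2 * δ + 2 * ε) - dot (P - O) (θ + 2 * δ) := by
    intro θ
    have a1 := h1 θ
    have a2 := h1 (θ + 2 * ε)
    have a3 := h2 θ
    have a4 := h2 (θ + 2 * δ)
    have e : θ + 2 * ε + 2 * δ = θ + 2 * δ + 2 * ε := by ring
    rw [e] at a2
    simp only [dot_sub]
    linarith
  have hD2 : ∀ θ, dot (P - O) (θ + 2 * ε) - dot (P - O) θ = 2 * sin ε * dop (P - O) (θ + ε) := by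
    intro θ
    have e1 := dot_add (P - O) (θ + ε) ε
    have e2 := dot_sub_angle (P - O) (θ + ε) ε
    have e : θ + ε + ε = θ + 2 * ε := by ring
    rw [e] at e1
    rw [add_sub_cancel_right] at e2
    rw [e1, e2]; ring
  have hD3 : ∀ φ, dop (P - O) (φ + 2 * δ) = dop (P - O) φ := by
    intro φ
    have a1 := hD (φ - ε)
    have a2 := hD2 (φ - ε)
    have a3 := hD2 (φ - ε + 2 * δ)
    rw [a2, a3] at a1
    have e1 : φ - ε + ε = φ := by ring
    have e2 : φ - ε + 2 * δ + ε = φ + 2 * δ := by ring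
    rw [e1, e2] at a1
    exact (mul_left_cancel₀ (mul_ne_zero two_ne_zero hs2) a1).symm
  have hD4 : ∀ φ, dot (P - O) φ = 0 := by
    intro φ
    have a1 := hD3 (φ - δ)
    have e1 := dop_add (P - O) φ δ
    have e2 := dop_sub_angle (P - O) φ δ
    have e : φ - δ + 2 * δ = φ + δ := by ring
    rw [e, e1, e2] at a1
    have : 2 * sin δ * dot (P - O) φ = 0 := by linarith
    rcases mul_eq_zero.1 this with h | h
    · exact absurd h (mul_ne_zero two_ne_zero hs1)
    · exact h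
  have a1 := hD4 0
  have a2 := hD4 (π / 2)
  simp only [dot, cos_zero, sin_zero, cos_pi_div_two, sin_pi_div_two, Complex.sub_re,
    Complex.sub_im] at a1 a2
  apply Complex.ext <;> linarith

end Pool.Agent.Q155.Iso
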