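import Mathlib
import Pool.Agent.Q155.Iso.Main

/-!
The isoptics of a disk, and a convex set with constant support function.
-/

set_option autoImplicit false
open Set Real Filter Topology

namespace Pool.Agent.Q155.Iso

variable {S : Set ℂ}

theorem exists_separating (hc : IsCompact S) (hconv : Convex ℝ S) (hne : S.Nonempty) {x : ℂ}
    (hx : x ∉ S) : ∃ φ, supp S φ < dot x φ := by
  obtain ⟨f, u, hf1, hf2⟩ := geometric_hahn_banach_closed_point hconv hc.isClosed hx
  set w : ℂ := ⟨f 1, f Complex.I⟩ with hw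
  have hfz : ∀ z : ℂ, f z = z.re * w.re + z.im * w.im := by
    intro z
    conv_lhs => rw [← Complex.re_add_im z]
    have h1 : (z.re : ℂ) = z.re • (1 : ℂ) := by simp
    have h2 : (z.im : ℂ) * Complex.I = z.im • Complex.I := by simp
    rw [map_add, h1, h2, map_smul, map_smul]
    simp [hw]
  have h1 : w.re = ‖w‖ * cos (Complex.arg w) := by rw [Complex.norm_mul_cos_arg]
  have h2 : w.im = ‖w‖ * sin (Complex.arg w) := by rw [Complex.norm_mul_sin_arg]
  have hfd : ∀ z : ℂ, f z = ‖w‖ * dot z (Complex.arg w) := by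
    intro z
    rw [hfz, dot]
    conv_lhs => rw [h1, h2]
    ring
  obtain ⟨y, hy, hye⟩ := exists_dot_eq_supp hc hne (Complex.arg w)
  have h3 := hf1 y hy
  have h4 : f y < f x := h3.trans hf2
  rw [hfd, hfd, hye] at h4
  refine ⟨Complex.arg w, ?_⟩
  exact lt_of_mul_lt_mul_left h4 (norm_nonneg _)

theorem eq_closedBall (hc : IsCompact S) (hconv : Convex ℝ S) (hne : S.Nonempty) {O : ℂ} {r : ℝ}
    (h : ∀ θ, supp S θ - dot O θ = r) : S = Metric.closedBall O r := by
  ext x
  rw [mem_closedBall_iff_norm]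
  constructor
  · intro hx
    obtain ⟨φ, h1, _⟩ := exists_dot_eq_norm (x - O)
    rw [← h1, dot_sub, ← h φ]
    linarith [dot_le_supp hc hx φ]
  · intro hx
    by_contra hcon
    obtain ⟨φ, h1⟩ := exists_separating hc hconv hne hcon
    have h2 := dot_le_norm (x - O) φ
    rw [dot_sub] at h2
    have := h φ
    linarith

theorem supp_closedBall (O : ℂ) {r : ℝ} (hr : 0 ≤ r) (φ : ℝ) :
    supp (Metric.closedBall O r) φ = dot O φ + r := by
  unfold supp
  apply IsGreatest.csSup_eq
  constructor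
  · refine ⟨O + ⟨r * cos φ, r * sin φ⟩, ?_, ?_⟩
    · rw [mem_closedBall_iff_norm, add_sub_cancel_left]
      have h1 : ‖(⟨r * cos φ, r * sin φ⟩ : ℂ)‖ ^ 2 = r ^ 2 := by
        rw [Complex.sq_norm, Complex.normSq_apply]
        have := sin_sq_add_cos_sq φ
        simp only
        linear_combination r ^ 2 * this
      exact ((pow_left_inj₀ (norm_nonneg _) hr two_ne_zero).1 h1).le
    · have := sin_sq_add_cos_sq φ
      simp only [dot, Complex.add_re, Complex.add_im]
      linear_combination r * this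
  · rintro _ ⟨x, hx, rfl⟩
    rw [mem_closedBall_iff_norm] at hx
    have h1 := dot_le_norm (x - O) φ
    rw [dot_sub] at h1
    simp only
    linarith

theorem sight_closedBall (O : ℂ) {r : ℝ} (hr : 0 < r) {P : ℂ} (hP : r < ‖P - O‖) :
    sight (Metric.closedBall O r) P = 2 * arcsin (r / ‖P - O‖) := by
  set ρ := ‖P - O‖ with hρ
  have hρ0 : 0 < ρ := hr.trans hP
  have hq0 : 0 < r / ρ := div_pos hr hρ0
  have hq1 : r / ρ < 1 := (div_lt_one hρ0).2 hP
  have ha0 : 0 < arcsin (r / ρ) := arcsin_pos.2 hq0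
  have ha1 : arcsin (r / ρ) < π / 2 := arcsin_lt_pi_div_two.2 hq1
  set δ := π - 2 * arcsin (r / ρ) with hδ
  have hd0 : 0 < δ := by rw [hδ]; linarith
  have hd1 : δ < π := by rw [hδ]; linarith
  have hcos : cos (δ / 2) = r / ρ := by
    have : δ / 2 = π / 2 - arcsin (r / ρ) := by rw [hδ]; ring
    rw [this, cos_pi_div_two_sub, sin_arcsin (by linarith) hq1.le]
  obtain ⟨ψ, h1, h2⟩ := exists_dot_eq_norm (P - O)
  rw [← hρ] at h1
  have h3 : dot (P - O) (ψ - δ / 2) = r := by
    rw [dot_sub_angle, h1, h2, hcos]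
    field_simp
    ring
  have h4 : dot (P - O) (ψ - δ / 2 + δ) = r := by
    have : ψ - δ / 2 + δ = ψ + δ / 2 := by ring
    rw [this, dot_add, h1, h2, hcos]
    field_simp
    ring
  have h5 := sight_eq (S := Metric.closedBall O r) (isCompact_closedBall O r)
    ⟨O, Metric.mem_closedBall_self hr.le⟩ hd0 hd1 (X := P) (θ := ψ - δ / 2)
    (by rw [supp_closedBall O hr.le, ← h3, dot_sub]; ring)
    (by rw [supp_closedBall O hr.le]; conv_rhs => rw [← h4]
        rw [dot_sub]; ring)
    (by rw [mem_closedBall_iff_norm]; exact not_le.2 hP)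
  rw [h5, hδ]
  ring

theorem isoptic_closedBall (O : ℂ) {r : ℝ} (hr : 0 < r) {γ : ℝ} (hγ : 0 < γ) (hγ' : γ < π) :
    isoptic (Metric.closedBall O r) γ = Metric.sphere O (r / sin (γ / 2)) := by
  have hs0 : 0 < sin (γ / 2) := sin_pos_of_pos_of_lt_pi (by linarith) (by linarith)
  have hs1 : sin (γ / 2) < 1 := by
    rw [← sin_pi_div_two]
    exact sin_lt_sin_of_lt_of_le_pi_div_two (by linarith [pi_pos]) le_rfl (by linarith)
  ext P
  simp only [isoptic, Set.mem_ofPred_eq]
  rw [mem_closedBall_iff_norm, mem_sphere_iff_norm, not_le]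
  constructor
  · rintro ⟨h1, h2⟩
    have hρ0 : 0 < ‖P - O‖ := hr.trans h1
    rw [sight_closedBall O hr h1] at h2
    have h3 : sin (γ / 2) = r / ‖P - O‖ := by
      rw [← h2]
      have : 2 * arcsin (r / ‖P - O‖) / 2 = arcsin (r / ‖P - O‖) := by ring
      rw [this, sin_arcsin (by linarith [div_pos hr hρ0]) ((div_lt_one hρ0).2 h1).le]
    rw [h3]
    field_simp
  · intro h1
    have h2 : r < ‖P - O‖ := by
      rw [h1, lt_div_iff₀ hs0]
      nlinarith
    refine ⟨h2, ?_⟩
    rw [sight_closedBall O hr h2, h1]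
    have h3 : r / (r / sin (γ / 2)) = sin (γ / 2) := by field_simp
    rw [h3, arcsin_sin (by linarith [pi_pos]) (by linarith)]
    ring

end Pool.Agent.Q155.Iso
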